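import Mathlib
import Pool.Agent.V11200.DistTable

/-!
A median graph on 13 vertices with a triametral triple that contains no peripheral vertex.
-/

namespace Pool.Agent.Results.MP_2f8eff_co.NoPeripheral

variable {V : Type*}

/-- The interval `[u, v]`: the vertices lying on some shortest `u`-`v` path. -/
def interval (G : SimpleGraph V) (u v : V) : Set V := {x | G.dist u x + G.dist x v = G.dist u v}

/-- `G` is a median graph. -/
def IsMedian (G : SimpleGraph V) : Prop :=
  G.Connected ∧ ∀ u v w : V, ∃! x, x ∈ interval G u v ∩ interval G u w ∩ interval G v w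

/-- `d(a, b, c) = d(a, b) + d(b, c) + d(a, c)`. -/
noncomputable def tri (G : SimpleGraph V) (a b c : V) : ℕ := G.dist a b + G.dist b c + G.dist a c

/-- The triple `a, b, c` is triametral. -/
def IsTriametral (G : SimpleGraph V) (a b c : V) : Prop := ∀ x y z, tri G x y z ≤ tri G a b c

/-- The vertex `v` is peripheral: its eccentricity is the diameter, that is, some vertex is at
maximum distance from it. -/
def IsPeripheral (G : SimpleGraph V) (v : V) : Prop := ∃ u, ∀ x y, G.dist x y ≤ G.dist u v

/-- Number of binary ones of a number below 256. -/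
def pc (n : ℕ) : ℕ :=
  n % 2 + n / 2 % 2 + n / 4 % 2 + n / 8 % 2 + n / 16 % 2 + n / 32 % 2 + n / 64 % 2 + n / 128 % 2

/-- The vertices as 0/1-words: the 3-cube and five pendant vertices. -/
def code : Fin 13 → ℕ := ![0, 1, 2, 3, 4, 5, 6, 7, 1 + 8, 2 + 16, 4 + 32, 0 + 64, 7 + 128]

/-- Hamming distance of the words. -/
def ham (u v : Fin 13) : ℕ := pc (code u ^^^ code v)

/-- The 3-cube with pendant vertices attached at `001, 010, 100, 000, 111`. -/
def G : SimpleGraph (Fin 13) where
  Adj u v := ham u v = 1
  symm := by
    constructor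
    intro u v h
    unfold ham at *
    rw [Nat.xor_comm]; exact h
  loopless := by
    constructor
    intro u h
    unfold ham at h
    rw [Nat.xor_self] at h
    revert h
    decide

instance : DecidableRel G.Adj := fun u v => inferInstanceAs (Decidable (ham u v = 1))

theorem G_dist : G.Connected ∧ ∀ u v, G.dist u v = ham u v := by
  apply Pool.Agent.V11200.dist_eq_table G ham
  · decide +kernel
  · decide +kernel
  · decide +kernel

theorem G_median : IsMedian G := by
  refine ⟨G_dist.1, ?_⟩
  have h : ∀ u v w : Fin 13, ∃ x, ((ham u x + ham x v = ham u v ∧ ham u x + ham x w = ham u w) ∧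
      ham v x + ham x w = ham v w) ∧ ∀ y, ((ham u y + ham y v = ham u v ∧
      ham u y + ham y w = ham u w) ∧ ham v y + ham y w = ham v w) → y = x := by
    decide +kernel
  intro u v w
  obtain ⟨x, hx1, hx2⟩ := h u v w
  refine ⟨x, ?_, ?_⟩
  · simpa only [interval, Set.mem_inter_iff, Set.mem_ofPred_eq, G_dist.2] using hx1
  · intro y hy
    apply hx2
    simpa only [interval, Set.mem_inter_iff, Set.mem_ofPred_eq, G_dist.2] using hy

/-- **Main theorem.** There is a finite median graph with a triametral triple none of whose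
vertices is peripheral. -/
theorem result : ∃ (V : Type) (_ : Fintype V) (G : SimpleGraph V), IsMedian G ∧
    ∃ a b c : V, IsTriametral G a b c ∧ ¬ IsPeripheral G a ∧ ¬ IsPeripheral G b ∧
      ¬ IsPeripheral G c := by
  refine ⟨Fin 13, inferInstance, G, G_median, 8, 9, 10, ?_, ?_, ?_, ?_⟩
  · have h : ∀ x y z : Fin 13, ham x y + ham y z + ham x z ≤ ham 8 9 + ham 9 10 + ham 8 10 := by
      decide +kernel
    intro x y z
    simpa only [tri, G_dist.2] using h x y z
  · have h : ∀ u : Fin 13, ¬ ∀ x y, ham x y ≤ ham u 8 := by decide +kernel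
    rintro ⟨u, hu⟩
    apply h u
    simpa only [G_dist.2] using hu
  · have h : ∀ u : Fin 13, ¬ ∀ x y, ham x y ≤ ham u 9 := by decide +kernel
    rintro ⟨u, hu⟩
    apply h u
    simpa only [G_dist.2] using hu
  · have h : ∀ u : Fin 13, ¬ ∀ x y, ham x y ≤ ham u 10 := by decide +kernel
    rintro ⟨u, hu⟩
    apply h u
    simpa only [G_dist.2] using hu

end Pool.Agent.Results.MP_2f8eff_co.NoPeripheral
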